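import Pool.Agent.H516R2.EQP4.AllY
import Pool.Agent.H620R2.GaugeQ.EventQ
import Pool.Agent.H620R2.GaugeQ.Q7
import Pool.Agent.H620R2.Gauge2.Trans
import Pool.Agent.H620R2.Gauge2.V7
import Pool.Agent.H620R2.Gauge.NonNull

/-!
# How many oracles put `NP` inside `BQP`, with an infinite polynomial hierarchy?

For every gauge `f` the following are equivalent: for every `ε > 0` there are infinitely many `N`
with `f N ≤ 2 ^ ((log N) ^ ε)`; the oracles `A` with `NP^A ⊆ BQP^A` are a null set for `f`; the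
oracles `A` such that `PSPACE^A ⊆ EQP^A` (exact circuits with at most six questions), `PH^A` is
infinite and `EQP^A` is not contained in `PH^A` are a null set for `f`. The same holds for
every set of oracles that has only elements `A` with `NP^A ⊆ BQP^A/poly` and that contains the
oracles just described, or contains the `A` such that every language in `PSPACE^A` is reducible
to `A`.
-/

set_option autoImplicit false

namespace Pool.Agent.Results.MP_0f8dca_lc.GaugeThresholdPH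

open Pool.Agent.NPC Pool.Agent.H620R2.Gauge Pool.Agent.H591R3.PHG Pool.Agent.H516R2.EQP
  Pool.Agent.H516R2.EQP4

theorem result (f : ℕ → ℝ) :
    (Null f {A : Oracle | ∀ L, IsNP A L → IsBQP A L} ↔
      ∀ ε : ℝ, 0 < ε → ∃ᶠ N : ℕ in Filter.atTop, f N ≤ 2 ^ (Real.logb 2 N) ^ ε) ∧
    (Null f {A : Oracle | (∀ L, IsPSPACE A L → IsEQP 6 A L) ∧
        (∀ k : ℕ, ∃ L, IsSig A (k + 1) L ∧ ¬ IsSig A k L) ∧ ∃ L, IsEQP 6 A L ∧ ¬ IsPH A L} ↔
      ∀ ε : ℝ, 0 < ε → ∃ᶠ N : ℕ in Filter.atTop, f N ≤ 2 ^ (Real.logb 2 N) ^ ε) ∧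
    ∀ O : Set Oracle,
      ((∀ A : Oracle, (∀ L, IsPSPACE A L → Reduces L {x | A x = true}) → A ∈ O) ∨
        (∀ A : Oracle, (∀ L, IsPSPACE A L → IsEQP 6 A L) →
          (∀ k : ℕ, ∃ L, IsSig A (k + 1) L ∧ ¬ IsSig A k L) →
          (∃ L, IsEQP 6 A L ∧ ¬ IsPH A L) → A ∈ O)) →
      (∀ A ∈ O, ∀ L, IsNP A L → WithAdvice (IsBQP A) L) →
      (Null f O ↔
        ∀ ε : ℝ, 0 < ε → ∃ᶠ N : ℕ in Filter.atTop, f N ≤ 2 ^ (Real.logb 2 N) ^ ε) := by
  have key : ∀ O : Set Oracle,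
      ((∀ A : Oracle, (∀ L, IsPSPACE A L → Reduces L {x | A x = true}) → A ∈ O) ∨
        (∀ A : Oracle, (∀ L, IsPSPACE A L → IsEQP 6 A L) →
          (∀ k : ℕ, ∃ L, IsSig A (k + 1) L ∧ ¬ IsSig A k L) →
          (∃ L, IsEQP 6 A L ∧ ¬ IsPH A L) → A ∈ O)) →
      (∀ A ∈ O, ∀ L, IsNP A L → WithAdvice (IsBQP A) L) →
      (Null f O ↔
        ∀ ε : ℝ, 0 < ε → ∃ᶠ N : ℕ in Filter.atTop, f N ≤ 2 ^ (Real.logb 2 N) ^ ε) := by
    intro O h1 h2
    constructor
    · intro hn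
      rcases h1 with h1 | h1
      · intro ε hε
        by_contra hcon
        rw [Filter.not_frequently] at hcon
        exact not_null f ε hε (hcon.mono fun N h => not_le.1 h) O h1 hn
      · exact (all_YH f).1 (hn.mono fun A hA => h1 A hA.1 hA.2.1 hA.2.2)
    · intro hf
      exact nullQ hf O fun A hA => h2 A hA _ (hitLang_np A)
  have hard : ∀ A : Oracle, (∀ L, IsPSPACE A L → Reduces L {x | A x = true}) →
      ∀ L, IsNP A L → IsBQP A L := fun A hA L hL => isBQP_of_reduces (hA L hL.isPSPACE)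
  exact ⟨key _ (Or.inl hard) fun A hA L hL => (hA L hL).withAdvice, all_YH f, key⟩

end Pool.Agent.Results.MP_0f8dca_lc.GaugeThresholdPH
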