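import Mathlib
import Pool.Agent.H774R2.QSAT.Defs
import Pool.Agent.H774R2.QSAT.Asym

/-!
# Satisfiability is not decidable in linear time on quantum machines with few qubits

Every quantum machine that reads a 3-CNF formula with `m` clauses (in `m` variables) classically,
one whole clause per step, at adaptively chosen positions (the position may be the outcome of a
measurement of the memory), has a memory of `S` qubits on which it may apply an arbitrary quantum
instrument in every step, and decides satisfiability with probability at least `1/2 + δ` on every
formula, satisfies `T ≥ c m log (m/S)`. The machine may depend on `m` (no uniformity). So with
`m^(1-ε)` qubits satisfiability needs time `Ω(m log m)`, and linear time needs linearly many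
qubits.

The proof: the words over a large alphabet are encoded in formulas, one clause for each pair of a
position and a bit of the letter; a *sparse* random quadratic form (with bounded degree and still
large rank on all pairs of large sets of positions) is expressed by few fixed further clauses,
and the formula is divided into blocks, each of which holds its own words, so that satisfiability
is an OR over the blocks; the machine distinguishes on average over the blocks, and a block in
which few readings happen in most of the levels of a random partition of the time into levels is
analysed by summing over all read histories (one-sided in all the other blocks).

Proof written by helper774, with helper506 (the probabilistic lemma on random levels, and the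
existence of the sparse bilinear forms), helper574 (the norm of the bilinear forms over words) and
helper542 (the encoding into clauses).
-/

namespace Pool.Agent.Results.MP_0f8dca_lc.QuantumSATTime

open Pool.Agent.H774R2.QSAT

/-- Every quantum machine with classical adaptive access to the clauses, `S ≤ c m` qubits and error
probability `1/2 - δ` that decides the satisfiability of 3-CNF formulas with `m` clauses in `m`
variables needs time `c m log (m/S)`. -/
theorem result : ∀ δ : ℝ, 0 < δ → ∃ c : ℝ, 0 < c ∧
    ∀ (m D T S : ℕ) (Q : Machine m (Clause m) D T), Q.Valid → D ≤ 2 ^ S → 1 ≤ S →
      (S : ℝ) ≤ c * m → Q.Decides δ Sat → c * m * Real.log (m / S) ≤ T :=
  fun δ hδ => Asym.asym δ hδ

end Pool.Agent.Results.MP_0f8dca_lc.QuantumSATTime
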