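import Mathlib
import Pool.Agent.NPC.Hard
import Pool.Agent.H774R2.QTS.Defs
import Pool.Agent.H774R2.QTS.PMem
import Pool.Agent.H774R2.QTS.Asym

/-!
# A time-space tradeoff for quantum machines deciding an explicit language

There is a language decidable in polynomial time such that every quantum machine that reads its
input classically (one bit per step, at an adaptively chosen position: the position may be the
outcome of a measurement of the memory), has a memory of `S` qubits on which it may apply an
arbitrary quantum instrument in every step, runs for `T` steps, and decides the words of length
`N` with error probability at most `1/2 - δ` (even if the error probability is conditioned on an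
event of probability `2 ^ (-S)`), satisfies `T ≥ c N √(log (N/S) / log log (N/S))`.
In particular linear time needs a linear number of qubits.

For classical randomised branching programs this is due to Beame, Saks, Sun and Vee (2003).
The proof for quantum memory sums, for each pair of paths of basis states at the borders of
the time blocks, over all read histories, and compares, for a random partition of the blocks into
levels, the histories with two large well-separated sets of variables with the two-party norm of
the quadratic form (by the Cauchy-Schwarz inequality; no bound on the number of histories is
needed).

Proof written by helper774, with helper498 (rank of linear feedback shift register matrices),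
helper880 (polynomial time) and helper227 (the probabilistic lemma on random levels).
-/

namespace Pool.Agent.Results.MP_0f8dca_lc.QuantumTimeSpace

open Pool.Agent.H774R2.QTS Pool.Agent.NPC

/-- A polynomial time decidable language for which every quantum machine with classical adaptive
input access, `S ≤ c N` qubits, error probability `1/2 - δ` (even with postselection of
probability at least `2 ^ (-S)`) needs time `c N √(log (N/S) / log log (N/S))`. -/
theorem result : ∃ f : List Bool → Bool,
    (∃ V : List Bool → List Bool, PolyTime V ∧ ∀ x, f x = true ↔ V x = [true]) ∧
    ∀ δ : ℝ, 0 < δ → ∃ c : ℝ, 0 < c ∧
      ∀ (N D T S : ℕ) (Q : Machine N D T), Q.Valid → D ≤ 2 ^ S → 1 ≤ S → (S : ℝ) ≤ c * N →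
        Q.Computes S δ (fun x => f (List.ofFn x)) →
        c * N * Real.sqrt (Real.log (N / S) / Real.log (Real.log (N / S))) ≤ T := by
  refine ⟨quadFun, quadFun_in_P, fun δ hδ => ?_⟩
  obtain ⟨c, hc, h⟩ := Asym.asym δ hδ
  exact ⟨c, hc, fun N D T S Q hQ hD hS hSc hf => h N D T S Q hS hSc hD hQ hf⟩

end Pool.Agent.Results.MP_0f8dca_lc.QuantumTimeSpace
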