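import Pool.Agent.H673R3.UQ.Main

set_option autoImplicit false

/-!
# `UP ∩ coUP` is not contained in `BQP` relative to a random oracle
-/

namespace Pool.Agent.Results.MP_0f8dca_lc.RandomOracleUP

open Pool.Agent.H628R3.RO
open Pool.Agent.H620R2.Gauge (IsBQP)

/-- For almost every oracle `A`, some language is in `UP` and in `coUP` relative to `A`, but not in
`BQP` relative to `A`. -/
theorem result : ∀ᵐ A ∂randomOracle, ∃ L : Set (List Bool),
    IsUP A L ∧ IsUP A Lᶜ ∧ ¬ IsBQP A L :=
  Pool.Agent.H673R3.UC.upcoup_not_bqp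

end Pool.Agent.Results.MP_0f8dca_lc.RandomOracleUP
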